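import Mathlib
import Pool.Agent.P.MP_18ddbc_gt.Chain

set_option autoImplicit false

namespace Pool.Agent.Results.MP_18ddbc_gt.Chainable

/-- `f` is a confluent map of `X` onto `Y`: it is onto, and every component of the preimage of a
subcontinuum `K` of `Y` is mapped onto `K`. -/
def Confluent {X Y : Type} [TopologicalSpace X] [TopologicalSpace Y] (f : X → Y) : Prop :=
  Function.Surjective f ∧ ∀ K : Set Y, IsClosed K → IsConnected K →
    ∀ x, f x ∈ K → f '' connectedComponentIn (f ⁻¹' K) x = K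

/-- Approximable maps between arbitrary inverse limits of arcs: the bonding maps of the source are
only assumed onto, those of the target only continuous. -/
theorem result (g h : ℕ → unitInterval → unitInterval)
    (hg : ∀ k, Continuous (g k) ∧ (IsOpenMap (g k) ∨ Function.Surjective (g k)))
    (hh : ∀ k, Continuous (h k))
    (f : {x : ℕ → unitInterval // ∀ k, x k = g k (x (k + 1))} →
      {y : ℕ → unitInterval // ∀ k, y k = h k (y (k + 1))})
    (hf : Continuous f) :
    (∀ j : ℕ, ∃ F : ℕ → unitInterval → unitInterval,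
        (∀ i, Continuous (F i) ∧ IsOpenMap (F i)) ∧
        TendstoUniformly
          (fun (i : ℕ) (x : {x : ℕ → unitInterval // ∀ k, x k = g k (x (k + 1))}) => F i (x.1 i))
          (fun x => (f x).1 j) Filter.atTop) ↔
      (Confluent f ∧ ∀ k, IsOpenMap (h k) ∨ Confluent (h k)) := by
  have hgc : ∀ k, Continuous (g k) := fun k => (hg k).1
  have hgs : ∀ k, Function.Surjective (g k) := fun k =>
    (hg k).2.elim (Pool.Agent.P.MP_18ddbc_gt.surj_of_open (hg k).1) id
  have hfj : ∀ j, Continuous fun x => (f x).1 j := fun j =>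
    (Pool.Agent.P.MP_18ddbc_gt.continuous_proj j).comp hf
  have : Nonempty (Pool.Agent.P.MP_18ddbc_gt.IL g) := by
    obtain ⟨x, -⟩ := Pool.Agent.P.MP_18ddbc_gt.proj_surj 0 g hgs 0
    exact ⟨x⟩
  constructor
  · intro H
    have hc : ∀ j, Pool.Agent.P.MP_18ddbc_gt.Conf fun x => (f x).1 j := fun j =>
      Pool.Agent.P.MP_18ddbc_gt.conf_of_approximable' hgc hgs (hfj j) (H j)
    refine ⟨⟨Pool.Agent.P.MP_18ddbc_gt.surj_of_conf hgc hh hf hc,
      Pool.Agent.P.MP_18ddbc_gt.confluent_of_conf hgc hh hf hc⟩, fun k => Or.inr ?_⟩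
    have hk := Pool.Agent.P.MP_18ddbc_gt.conf_bond hf hc k
    exact ⟨hk.surj, fun K _ hK x hx => hk.comp_eq K hK x hx⟩
  · rintro ⟨hf', hh'⟩ j
    have hc : ∀ k, Pool.Agent.P.MP_18ddbc_gt.Conf (h k) := fun k =>
      (hh' k).elim (Pool.Agent.P.MP_18ddbc_gt.conf_of_open (hh k))
        fun hk => Pool.Agent.P.MP_18ddbc_gt.conf_of_comp_eq hk.2
    exact Pool.Agent.P.MP_18ddbc_gt.approximable_of_conf' hgc hgs (hfj j)
      (Pool.Agent.P.MP_18ddbc_gt.conf_of_confluent'
        (Pool.Agent.P.MP_18ddbc_gt.conf_proj hh hc j) hf'.2)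

end Pool.Agent.Results.MP_18ddbc_gt.Chainable
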